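import Mathlib

/-!
# 99 percent Frechet equation on an interval of integers

If the mixed differences of order `k` of `f : ℕ → ℝ` are at most `δ` for most cubes of
`[0,W) × [0,W)^k` then `f` is `C δ`-close to a polynomial of degree `< k` at most points of
`[0, W / C)`.
-/

namespace Pool.Agent.Helper19.RSK

open Finset

/-- forward difference with step `h` -/
def D (h : ℕ) (f : ℕ → ℝ) : ℕ → ℝ := fun t => f (t + h) - f t

/-- iterated difference -/
def Dl (l : List ℕ) (f : ℕ → ℝ) : ℕ → ℝ := l.foldr D f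

lemma D_comm (h h' : ℕ) (f : ℕ → ℝ) : D h (D h' f) = D h' (D h f) := by
  funext t
  simp only [D]
  rw [show t + h + h' = t + h' + h by ring]
  ring

@[simp] lemma Dl_nil (f : ℕ → ℝ) : Dl [] f = f := rfl

@[simp] lemma Dl_cons (h : ℕ) (l : List ℕ) (f : ℕ → ℝ) : Dl (h :: l) f = D h (Dl l f) := rfl

lemma Dl_D (l : List ℕ) (h : ℕ) (f : ℕ → ℝ) : Dl l (D h f) = D h (Dl l f) := by
  induction l with
  | nil => rfl
  | cons a l ih => rw [Dl_cons, ih, Dl_cons, D_comm]

lemma D_sub (h : ℕ) (f g : ℕ → ℝ) : D h (fun t => f t - g t) = fun t => D h f t - D h g t := by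
  funext t
  simp only [D]
  ring

lemma Dl_sub (l : List ℕ) (f g : ℕ → ℝ) :
    Dl l (fun t => f t - g t) = fun t => Dl l f t - Dl l g t := by
  induction l with
  | nil => rfl
  | cons a l ih => rw [Dl_cons, ih, D_sub]; rfl

/-- number of `t < T` at which `|g t| > δ` -/
noncomputable def bad (T : ℕ) (δ : ℝ) (g : ℕ → ℝ) : ℕ := by
  classical exact ((range T).filter (fun t => δ < |g t|)).card

lemma bad_le (T : ℕ) (δ : ℝ) (g : ℕ → ℝ) : bad T δ g ≤ T := by
  classical
  unfold bad
  exact (card_filter_le _ _).trans (by simp)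

lemma bad_mono {T T' : ℕ} {δ δ' : ℝ} {g g' : ℕ → ℝ} (hT : T ≤ T')
    (h : ∀ t, t < T → δ < |g t| → δ' < |g' t|) : bad T δ g ≤ bad T' δ' g' := by
  classical
  unfold bad
  apply card_le_card
  intro t ht
  simp only [mem_filter, mem_range] at ht ⊢
  exact ⟨by omega, h t ht.1 ht.2⟩

/-- number of bad cubes -/
noncomputable def eb (W T : ℕ) (δ : ℝ) : ℕ → (ℕ → ℝ) → ℕ
  | 0, f => bad T δ f
  | (k + 1), f => ∑ r ∈ range W, eb W T δ k (D r f)

lemma eb_split (W T T' h : ℕ) (δ : ℝ) (hT : T' + h ≤ T) (k : ℕ) :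
    ∀ g g1 g2 : ℕ → ℝ, (∀ t, g t = g1 t - g2 (t + h)) →
      eb W T' (2 * δ) k g ≤ eb W T δ k g1 + eb W T δ k g2 := by
  classical
  induction k with
  | zero =>
    intro g g1 g2 hg
    simp only [eb, bad]
    have h1 : ((range T').filter (fun t => 2 * δ < |g t|)) ⊆
        ((range T).filter (fun t => δ < |g1 t|)) ∪
        ((range T').filter (fun t => δ < |g2 (t + h)|)) := by
      intro t ht
      simp only [mem_filter, mem_range, mem_union] at ht ⊢
      by_contra hc
      push Not at hc
      have h2 := hc.1 (by omega)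
      have h3 := hc.2 ht.1
      have h4 := ht.2
      rw [hg t] at h4
      have h5 := abs_sub (g1 t) (g2 (t + h))
      linarith
    have h2 : ((range T').filter (fun t => δ < |g2 (t + h)|)).card ≤
        ((range T).filter (fun t => δ < |g2 t|)).card := by
      apply card_le_card_of_injOn (fun t => t + h)
      · intro t ht
        simp only [coe_filter, mem_range, Set.mem_ofPred_eq] at ht ⊢
        exact ⟨by omega, ht.2⟩
      · intro a _ b _ hab
        simpa using hab
    calc _ ≤ _ := card_le_card h1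
      _ ≤ _ := card_union_le _ _
      _ ≤ _ := by omega
  | succ k ih =>
    intro g g1 g2 hg
    simp only [eb]
    rw [← sum_add_distrib]
    apply sum_le_sum
    intro r _
    apply ih
    intro t
    simp only [D]
    rw [hg, hg, show t + h + r = t + r + h by ring]
    ring

lemma one_step (W T T' h : ℕ) (δ : ℝ) (hT : T' + h ≤ T) (hh : 2 * h ≤ W) (k : ℕ)
    (f : ℕ → ℝ) : W * eb W T' (2 * δ) k (D h f) ≤ 4 * eb W T δ (k + 1) f := by
  have h1 : ∀ r ∈ Ico h W, eb W T' (2 * δ) k (D h f) ≤
      eb W T δ k (D r f) + eb W T δ k (D (r - h) f) := by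
    intro r hr
    rw [mem_Ico] at hr
    apply eb_split W T T' h δ hT k
    intro t
    simp only [D]
    rw [show t + h + (r - h) = t + r by omega]
    ring
  have h2 := sum_le_sum h1
  rw [sum_const, Nat.card_Ico, smul_eq_mul, sum_add_distrib] at h2
  have h3 : ∑ r ∈ Ico h W, eb W T δ k (D r f) ≤ eb W T δ (k + 1) f := by
    simp only [eb]
    apply sum_le_sum_of_subset
    intro r hr
    rw [mem_Ico] at hr
    rw [mem_range]
    exact hr.2
  have h4 : ∑ r ∈ Ico h W, eb W T δ k (D (r - h) f) ≤ eb W T δ (k + 1) f := by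
    simp only [eb]
    calc ∑ r ∈ Ico h W, eb W T δ k (D (r - h) f)
        = ∑ r ∈ range (W - h), eb W T δ k (D r f) := by
          rw [sum_Ico_eq_sum_range]
          apply sum_congr rfl
          intro r _
          rw [show h + r - h = r by omega]
      _ ≤ _ := by
          apply sum_le_sum_of_subset
          intro r hr
          rw [mem_range] at hr ⊢
          omega
  have h5 : W ≤ 2 * (W - h) := by omega
  calc W * eb W T' (2 * δ) k (D h f) ≤ 2 * (W - h) * eb W T' (2 * δ) k (D h f) :=
        Nat.mul_le_mul_right _ h5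
    _ = 2 * ((W - h) * eb W T' (2 * δ) k (D h f)) := by ring
    _ ≤ 2 * (eb W T δ (k + 1) f + eb W T δ (k + 1) f) := by
        apply Nat.mul_le_mul_left
        omega
    _ = _ := by ring

/-- From most cubes to all steps and most points. -/
lemma all_steps (W : ℕ) : ∀ (k T : ℕ) (δ : ℝ) (f : ℕ → ℝ) (l : List ℕ), l.length = k →
    (∀ h ∈ l, 2 * h ≤ W) → (∀ h ∈ l, h ≤ T / 2 ^ k) →
    W ^ k * bad (T / 2 ^ k) (2 ^ k * δ) (Dl l f) ≤ 4 ^ k * eb W T δ k f := by
  intro k
  induction k with
  | zero =>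
    intro T δ f l hl _ _
    rw [List.length_eq_zero_iff] at hl
    subst hl
    simp [eb]
  | succ k ih =>
    intro T δ f l hl hW hT
    cases l with
    | nil => simp at hl
    | cons h l =>
      simp only [List.length_cons, Nat.add_right_cancel_iff] at hl
      have hh : 2 * h ≤ W := hW h (by simp)
      have hh2 : h ≤ T / 2 ^ (k + 1) := hT h (by simp)
      have e1 : T / 2 ^ (k + 1) = T / 2 / 2 ^ k := by
        rw [Nat.div_div_eq_div_mul, pow_succ']
      have e2 : T / 2 / 2 ^ k ≤ T / 2 := Nat.div_le_self _ _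
      have h1 := one_step W T (T / 2) h δ (by omega) hh k f
      have h2 := ih (T / 2) (2 * δ) (D h f) l hl (fun a ha => hW a (by simp [ha]))
        (fun a ha => by rw [← e1]; exact hT a (by simp [ha]))
      rw [Dl_cons, e1, ← Dl_D]
      have e3 : (2 : ℝ) ^ (k + 1) * δ = 2 ^ k * (2 * δ) := by ring
      rw [e3]
      calc W ^ (k + 1) * bad (T / 2 / 2 ^ k) (2 ^ k * (2 * δ)) (Dl l (D h f))
          = W * (W ^ k * bad (T / 2 / 2 ^ k) (2 ^ k * (2 * δ)) (Dl l (D h f))) := by ring
        _ ≤ W * (4 ^ k * eb W (T / 2) (2 * δ) k (D h f)) := Nat.mul_le_mul_left _ h2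
        _ = 4 ^ k * (W * eb W (T / 2) (2 * δ) k (D h f)) := by ring
        _ ≤ 4 ^ k * (4 * eb W T δ (k + 1) f) := Nat.mul_le_mul_left _ h1
        _ = _ := by ring

/-- Skof: Hyers-Ulam stability of additive functions on an interval of integers. -/
lemma skof (H : ℕ) (δ : ℝ) (s : ℕ → ℝ)
    (hs : ∀ a b, a + b ≤ H → |s (a + b) - s a - s b| ≤ δ) (h : ℕ) (hh : h ≤ H) :
    |s h - (h / H : ℝ) * s H| ≤ 3 * δ := by
  rcases Nat.eq_zero_or_pos H with h0 | hpos
  · subst h0
    have : h = 0 := by omega
    subst this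
    have h1 := hs 0 0 (by omega)
    simp only [add_zero, sub_self, zero_sub, abs_neg] at h1
    simp only [CharP.cast_eq_zero, div_zero, zero_mul, sub_zero]
    have := abs_nonneg (s 0)
    linarith
  have hH : (0 : ℝ) < H := by exact_mod_cast hpos
  set g : ℕ → ℝ := fun x => s x - (x / H : ℝ) * s H with hgdef
  have hg : ∀ a b, a + b ≤ H → |g (a + b) - g a - g b| ≤ δ := by
    intro a b hab
    have e : g (a + b) - g a - g b = s (a + b) - s a - s b := by
      simp only [hgdef]
      push_cast
      field_simp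
      ring
    rw [e]
    exact hs a b hab
  have hgH : g H = 0 := by
    simp only [hgdef]
    rw [div_self hH.ne']
    ring
  obtain ⟨x, hx, hmax⟩ := exists_max_image (range (H + 1)) (fun x => |g x|) ⟨0, by simp⟩
  rw [mem_range] at hx
  have hM : ∀ y, y ≤ H → |g y| ≤ |g x| := by
    intro y hy
    exact hmax y (by rw [mem_range]; omega)
  have key : |g x| ≤ 3 * δ := by
    have hδ : 0 ≤ δ := (abs_nonneg _).trans (hg 0 0 (by omega))
    rcases le_or_gt (2 * x) H with h2 | h2
    · have h3 := hg x x (by omega)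
      have h4 := hM (x + x) (by omega)
      have h5 : |2 * g x| ≤ |g (x + x)| + |g (x + x) - g x - g x| := by
        have : 2 * g x = g (x + x) - (g (x + x) - g x - g x) := by ring
        rw [this]
        exact abs_sub _ _
      rw [abs_mul, abs_two] at h5
      linarith
    · have h3 := hg x (H - x) (by omega)
      rw [show x + (H - x) = H by omega, hgH] at h3
      have h4 := hg (H - x) (H - x) (by omega)
      have h5 := hM (H - x + (H - x)) (by omega)
      have h6 : |2 * g x| ≤ |g (H - x + (H - x))| +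
          |g (H - x + (H - x)) - g (H - x) - g (H - x)| +
          2 * |0 - g x - g (H - x)| := by
        have : 2 * g x = -(g (H - x + (H - x))) +
          (g (H - x + (H - x)) - g (H - x) - g (H - x)) -
          2 * (0 - g x - g (H - x)) := by ring
        rw [this]
        refine (abs_sub _ _).trans ?_
        rw [abs_mul, abs_two]
        have := abs_add_le (-(g (H - x + (H - x))))
          (g (H - x + (H - x)) - g (H - x) - g (H - x))
        rw [abs_neg] at this
        linarith
      rw [abs_mul, abs_two] at h6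
      linarith
  exact (hM h hh).trans key

/-- `s` is a typical value of `g` on `[0,T)` -/
def IsTyp (T : ℕ) (δ : ℝ) (E : ℝ) (g : ℕ → ℝ) (s : ℝ) : Prop :=
  (bad T δ (fun t => g t - s) : ℝ) ≤ E

lemma exists_typ (H : ℕ) (δ E : ℝ) (hE : 0 ≤ E) (g : ℕ → ℝ)
    (hg : ∀ h ≤ H, (bad H δ (D h g) : ℝ) ≤ E) : ∃ s, IsTyp H δ (2 * E) g s := by
  classical
  rcases Nat.eq_zero_or_pos H with h0 | hpos
  · subst h0
    refine ⟨0, ?_⟩
    unfold IsTyp bad
    simp
    linarith
  by_contra hc
  push Not at hc
  have h1 : ∀ t0 ∈ range H, 2 * E < (bad H δ (fun t => g t - g t0) : ℝ) := by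
    intro t0 _
    have := hc (g t0)
    unfold IsTyp at this
    exact not_le.mp this
  have h2 : ∑ t0 ∈ range H, 2 * E < ∑ t0 ∈ range H, (bad H δ (fun t => g t - g t0) : ℝ) :=
    sum_lt_sum_of_nonempty ⟨0, by simpa using hpos⟩ h1
  rw [sum_const, card_range, nsmul_eq_mul] at h2
  -- count pairs
  have h3 : (∑ t0 ∈ range H, bad H δ (fun t => g t - g t0)) ≤
      ∑ h ∈ range H, (bad H δ (D h g) + bad H δ (D h g)) := by
    have e1 : ∀ t0 ∈ range H, bad H δ (fun t => g t - g t0) ≤
        (∑ h ∈ range H, if δ < |D h g t0| then 1 else 0) +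
        (∑ h ∈ range H, if (h ≤ t0 ∧ δ < |D h g (t0 - h)|) then 1 else 0) := by
      intro t0 ht0
      rw [mem_range] at ht0
      unfold bad
      rw [sum_boole, sum_boole]
      simp only [Nat.cast_id]
      have : (range H).filter (fun t => δ < |g t - g t0|) ⊆
          ((range H).filter (fun h => δ < |D h g t0|)).image (fun h => t0 + h) ∪
          ((range H).filter (fun h => h ≤ t0 ∧ δ < |D h g (t0 - h)|)).image
            (fun h => t0 - h) := by
        intro t ht
        simp only [mem_filter, mem_range, mem_union, mem_image] at ht ⊢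
        rcases le_total t0 t with h | h
        · left
          refine ⟨t - t0, ⟨by omega, ?_⟩, by omega⟩
          simp only [D]
          rw [show t0 + (t - t0) = t by omega]
          exact ht.2
        · right
          refine ⟨t0 - t, ⟨by omega, by omega, ?_⟩, by omega⟩
          simp only [D]
          rw [show t0 - (t0 - t) = t by omega, show t + (t0 - t) = t0 by omega, abs_sub_comm]
          exact ht.2
      calc _ ≤ _ := card_le_card this
        _ ≤ _ := card_union_le _ _
        _ ≤ _ := add_le_add card_image_le card_image_le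
    calc _ ≤ _ := sum_le_sum e1
      _ = (∑ h ∈ range H, ∑ t0 ∈ range H, if δ < |D h g t0| then 1 else 0) +
          (∑ h ∈ range H, ∑ t0 ∈ range H,
            if (h ≤ t0 ∧ δ < |D h g (t0 - h)|) then 1 else 0) := by
          rw [sum_add_distrib]
          congr 1
          · exact sum_comm
          · exact sum_comm
      _ ≤ _ := by
          rw [sum_add_distrib]
          apply add_le_add
          · apply sum_le_sum
            intro h _
            rw [sum_boole]
            simp only [Nat.cast_id]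
            unfold bad
            exact le_rfl
          · apply sum_le_sum
            intro h _
            rw [sum_boole]
            simp only [Nat.cast_id]
            unfold bad
            apply card_le_card_of_injOn (fun t => t - h)
            · intro t ht
              simp only [coe_filter, mem_range, Set.mem_ofPred_eq] at ht ⊢
              exact ⟨by omega, ht.2.2⟩
            · intro a ha b hb hab
              simp only [coe_filter, mem_range, Set.mem_ofPred_eq] at ha hb hab
              omega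
  have h4 : ∑ h ∈ range H, ((bad H δ (D h g) : ℝ) + bad H δ (D h g)) ≤
      ∑ h ∈ range H, (E + E) := by
    apply sum_le_sum
    intro h hh
    rw [mem_range] at hh
    have := hg h hh.le
    linarith
  rw [sum_const, card_range, nsmul_eq_mul] at h4
  have h5 : ((∑ t0 ∈ range H, bad H δ (fun t => g t - g t0) : ℕ) : ℝ) ≤
      ((∑ h ∈ range H, (bad H δ (D h g) + bad H δ (D h g)) : ℕ) : ℝ) := by
    exact_mod_cast h3
  push_cast at h5
  linarith

open Classical in
/-- a typical value -/
noncomputable def S (H : ℕ) (δ E : ℝ) (g : ℕ → ℝ) : ℝ :=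
  if h : ∃ s, IsTyp H δ E g s then h.choose else 0

lemma S_spec {H : ℕ} {δ E : ℝ} {g : ℕ → ℝ} (h : ∃ s, IsTyp H δ E g s) :
    IsTyp H δ E g (S H δ E g) := by
  unfold S
  rw [dif_pos h]
  exact h.choose_spec

lemma quasi (H : ℕ) (δ E : ℝ) (g : ℕ → ℝ) (hE : 6 * E < H)
    (hg : ∀ h ≤ H, ∃ s, IsTyp H δ E (D h g) s) (a b : ℕ) (hab : a + b ≤ H / 2) :
    |S H δ E (D (a + b) g) - S H δ E (D a g) - S H δ E (D b g)| ≤ 3 * δ := by
  classical
  have h0 : H / 2 ≤ H := Nat.div_le_self _ _
  have h1 := S_spec (hg (a + b) (by omega))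
  have h2 := S_spec (hg a (by omega))
  have h3 := S_spec (hg b (by omega))
  set s1 := S H δ E (D (a + b) g)
  set s2 := S H δ E (D a g)
  set s3 := S H δ E (D b g)
  unfold IsTyp bad at h1 h2 h3
  by_contra hc
  have hc' : ∀ t, t < H - b → (δ < |D (a + b) g t - s1| ∨ δ < |D a g (t + b) - s2| ∨
      δ < |D b g t - s3|) := by
    intro t _
    by_contra h4
    push Not at h4
    apply hc
    have e : s1 - s2 - s3 = (D a g (t + b) - s2) + (D b g t - s3) - (D (a + b) g t - s1) := by
      simp only [D]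
      rw [show t + (a + b) = t + b + a by ring]
      ring
    rw [e]
    refine (abs_sub _ _).trans ?_
    have h5 := abs_add_le (D a g (t + b) - s2) (D b g t - s3)
    linarith [h4.1, h4.2.1, h4.2.2]
  have hsub : range (H - b) ⊆ ((range H).filter (fun t => δ < |D (a + b) g t - s1|)) ∪
      (((range (H - b)).filter (fun t => δ < |D a g (t + b) - s2|)) ∪
      ((range H).filter (fun t => δ < |D b g t - s3|))) := by
    intro t ht
    have ht' := hc' t (mem_range.mp ht)
    rw [mem_range] at ht
    simp only [mem_union, mem_filter, mem_range]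
    rcases ht' with h | h | h
    · left; exact ⟨by omega, h⟩
    · right; left; exact ⟨ht, h⟩
    · right; right; exact ⟨by omega, h⟩
  have hsh : ((range (H - b)).filter (fun t => δ < |D a g (t + b) - s2|)).card ≤
      ((range H).filter (fun t => δ < |D a g t - s2|)).card := by
    apply card_le_card_of_injOn (fun t => t + b)
    · intro t ht
      simp only [coe_filter, mem_range, Set.mem_ofPred_eq] at ht ⊢
      exact ⟨by omega, ht.2⟩
    · intro x _ y _ hxy
      simpa using hxy
  have hcard := card_le_card hsub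
  rw [card_range] at hcard
  have hcard2 : H - b ≤ ((range H).filter (fun t => δ < |D (a + b) g t - s1|)).card +
      (((range H).filter (fun t => δ < |D a g t - s2|)).card +
      ((range H).filter (fun t => δ < |D b g t - s3|)).card) := by
    refine hcard.trans ((card_union_le _ _).trans ?_)
    apply Nat.add_le_add_left
    refine (card_union_le _ _).trans ?_
    exact Nat.add_le_add_right hsh _
  have hcard3 : ((H - b : ℕ) : ℝ) ≤ 3 * E := by
    have : ((H - b : ℕ) : ℝ) ≤ ((((range H).filter (fun t => δ < |D (a + b) g t - s1|)).card +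
      (((range H).filter (fun t => δ < |D a g t - s2|)).card +
      ((range H).filter (fun t => δ < |D b g t - s3|)).card) : ℕ) : ℝ) := by
      exact_mod_cast hcard2
    push_cast at this
    linarith
  have h4 : H ≤ 2 * (H - b) := by omega
  have h5 : (H : ℝ) ≤ 2 * ((H - b : ℕ) : ℝ) := by exact_mod_cast h4
  linarith

lemma prod_div_le (H : ℕ) : ∀ (l : List ℕ), (∀ h ∈ l, h ≤ H) →
    0 ≤ ((l.map (Nat.cast : ℕ → ℝ)).prod / (H : ℝ) ^ l.length) ∧
    ((l.map (Nat.cast : ℕ → ℝ)).prod / (H : ℝ) ^ l.length) ≤ 1 := by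
  intro l
  induction l with
  | nil => intro _; simp
  | cons a l ih =>
    intro hl
    have h1 := ih (fun h hh => hl h (by simp [hh]))
    have h2 : a ≤ H := hl a (by simp)
    have e : ((a :: l).map (Nat.cast : ℕ → ℝ)).prod / (H : ℝ) ^ (a :: l).length =
        (a / H : ℝ) * ((l.map (Nat.cast : ℕ → ℝ)).prod / (H : ℝ) ^ l.length) := by
      simp only [List.map_cons, List.prod_cons, List.length_cons, pow_succ']
      rw [mul_div_mul_comm]
    rw [e]
    have h3 : (0 : ℝ) ≤ (a / H : ℝ) := by positivity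
    have h4 : (a / H : ℝ) ≤ 1 := by
      apply div_le_one_of_le₀
      · exact_mod_cast h2
      · positivity
    constructor
    · exact mul_nonneg h3 h1.1
    · calc _ ≤ (1 : ℝ) * 1 := mul_le_mul h4 h1.2 h1.1 (by norm_num)
        _ = 1 := by norm_num

lemma near (H : ℕ) (δ E : ℝ) (hE : 6 * E < H) : ∀ (i : ℕ) (f : ℕ → ℝ),
    (∀ l : List ℕ, l.length = i → (∀ h ∈ l, h ≤ H) → ∃ s, IsTyp H δ E (Dl l f) s) →
    ∀ l : List ℕ, l.length = i → (∀ h ∈ l, h ≤ H / 2) →
    |S H δ E (Dl l f) - ((l.map (Nat.cast : ℕ → ℝ)).prod / ((H / 2 : ℕ) : ℝ) ^ i) *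
      S H δ E (Dl (List.replicate i (H / 2)) f)| ≤ 9 * i * δ := by
  intro i
  have h0 : H / 2 ≤ H := Nat.div_le_self _ _
  induction i with
  | zero =>
    intro f _ l hl _
    rw [List.length_eq_zero_iff] at hl
    subst hl
    simp
  | succ i ih =>
    intro f hf l hl hlH
    cases l with
    | nil => simp at hl
    | cons h l =>
      simp only [List.length_cons, Nat.add_right_cancel_iff] at hl
      have hh : h ≤ H / 2 := hlH h (by simp)
      have hl2 : ∀ x ∈ l, x ≤ H / 2 := fun x hx => hlH x (by simp [hx])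
      have h1 := ih (D h f) (by
        intro l' hl' hl'H
        have := hf (h :: l') (by simp [hl']) (by
          intro x hx
          rcases List.mem_cons.mp hx with h2 | h2
          · omega
          · exact hl'H x h2)
        rwa [Dl_cons, ← Dl_D] at this) l hl hl2
      set g := Dl (List.replicate i (H / 2)) f with hg
      have h2 := skof (H / 2) (3 * δ) (fun x => S H δ E (D x g)) (by
        intro a b hab
        apply quasi H δ E g hE _ a b hab
        intro x hx
        have := hf (x :: List.replicate i (H / 2)) (by simp) (by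
          intro y hy
          rcases List.mem_cons.mp hy with h3 | h3
          · omega
          · have := List.eq_of_mem_replicate h3
            omega)
        rwa [Dl_cons] at this) h hh
      rw [Dl_D, Dl_D, ← hg] at h1
      rw [Dl_cons, List.replicate_succ, Dl_cons, ← hg]
      have h3 := prod_div_le (H / 2) l hl2
      rw [hl] at h3
      set p : ℝ := (l.map (Nat.cast : ℕ → ℝ)).prod / ((H / 2 : ℕ) : ℝ) ^ i with hp
      have e1 : ((h :: l).map (Nat.cast : ℕ → ℝ)).prod / ((H / 2 : ℕ) : ℝ) ^ (i + 1) =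
          p * ((h : ℝ) / ((H / 2 : ℕ) : ℝ)) := by
        rw [hp]
        simp only [List.map_cons, List.prod_cons, pow_succ]
        rw [mul_comm (h : ℝ), mul_div_mul_comm]
      rw [e1]
      set s1 := S H δ E (D h (Dl l f))
      set s2 := S H δ E (D h g)
      set s3 := S H δ E (D (H / 2) g)
      set q : ℝ := (h : ℝ) / ((H / 2 : ℕ) : ℝ)
      have e2 : s1 - p * q * s3 = (s1 - p * s2) + p * (s2 - q * s3) := by ring
      rw [e2]
      refine (abs_add_le _ _).trans ?_
      rw [abs_mul, abs_of_nonneg h3.1]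
      have h4 : p * |s2 - q * s3| ≤ 1 * (3 * (3 * δ)) :=
        mul_le_mul h3.2 h2 (abs_nonneg _) (by norm_num)
      push_cast
      linarith

open Polynomial in
lemma Dl_poly : ∀ (k : ℕ) (P : ℝ[X]), P.natDegree ≤ k → ∀ l : List ℕ, l.length = k →
    Dl l (fun t => P.eval (t : ℝ)) = fun _ => (k.factorial : ℝ) * P.coeff k *
      (l.map (Nat.cast : ℕ → ℝ)).prod := by
  intro k
  induction k with
  | zero =>
    intro P hP l hl
    rw [List.length_eq_zero_iff] at hl
    subst hl
    funext t
    rw [Polynomial.eq_C_of_natDegree_le_zero hP]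
    simp
  | succ k ih =>
    intro P hP l hl
    cases l with
    | nil => simp at hl
    | cons h l =>
      simp only [List.length_cons, Nat.add_right_cancel_iff] at hl
      set Q : ℝ[X] := taylor (h : ℝ) P - P with hQ
      have hQd : Q.natDegree ≤ k := by
        rw [Polynomial.natDegree_le_iff_coeff_eq_zero]
        intro N hN
        rw [hQ, coeff_sub, taylor_coeff]
        rcases Nat.lt_or_ge (k + 1) N with h1 | h1
        · rw [Polynomial.coeff_eq_zero_of_natDegree_lt (by omega : P.natDegree < N)]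
          rw [Polynomial.hasseDeriv_eq_zero_of_lt_natDegree _ _ (by omega)]
          simp
        · have h2 : N = k + 1 := by omega
          subst h2
          have h3 : (hasseDeriv (k + 1) P).natDegree ≤ 0 := by
            refine (natDegree_hasseDeriv_le _ _).trans (by omega)
          rw [Polynomial.eq_C_of_natDegree_le_zero h3, eval_C, hasseDeriv_coeff]
          simp
      have hQc : Q.coeff k = (k + 1) * P.coeff (k + 1) * h := by
        rw [hQ, coeff_sub, taylor_coeff]
        have h3 : (hasseDeriv k P).natDegree < 2 := by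
          have := natDegree_hasseDeriv_le P k
          omega
        rw [Polynomial.eval_eq_sum_range' h3]
        rw [sum_range_succ, sum_range_one, hasseDeriv_coeff, hasseDeriv_coeff]
        simp only [zero_add, Nat.choose_self, Nat.cast_one, one_mul, pow_zero, mul_one, pow_one]
        rw [show 1 + k = k + 1 by ring, Nat.choose_succ_self_right]
        push_cast
        ring
      have e1 : D h (fun t => P.eval (t : ℝ)) = fun t : ℕ => Q.eval (t : ℝ) := by
        funext t
        simp only [D, hQ, eval_sub, taylor_eval]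
        push_cast
        ring_nf
      rw [Dl_cons, ← Dl_D, e1, ih Q hQd l hl, hQc]
      funext t
      simp only [List.map_cons, List.prod_cons, Nat.factorial_succ]
      push_cast
      ring

/-- all steps in `[0,H]`, most points of `[0,H)` -/
def AllB (k H : ℕ) (δ E : ℝ) (f : ℕ → ℝ) : Prop :=
  ∀ l : List ℕ, l.length = k → (∀ h ∈ l, h ≤ H) → (bad H δ (Dl l f) : ℝ) ≤ E

lemma AllB_step (k H : ℕ) (δ E : ℝ) (hE0 : 0 ≤ E) (f : ℕ → ℝ)
    (hE : 12 * E < H) (hf : AllB (k + 1) H δ E f) :
    ∃ c : ℝ, AllB k (H / 2) ((9 * k + 1) * δ) (2 * E) (fun t => f t - c * (t : ℝ) ^ k) := by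
  have h0 : H / 2 ≤ H := Nat.div_le_self _ _
  have hE6 : 6 * (2 * E) < H := by linarith
  have htyp : ∀ l : List ℕ, l.length = k → (∀ h ∈ l, h ≤ H) →
      ∃ s, IsTyp H δ (2 * E) (Dl l f) s := by
    intro l hl hlH
    apply exists_typ H δ E hE0
    intro h hh
    have := hf (h :: l) (by simp [hl]) (by
      intro x hx
      rcases List.mem_cons.mp hx with h2 | h2
      · omega
      · exact hlH x h2)
    rwa [Dl_cons] at this
  set s0 := S H δ (2 * E) (Dl (List.replicate k (H / 2)) f) with hs0
  refine ⟨s0 / ((k.factorial : ℝ) * ((H / 2 : ℕ) : ℝ) ^ k), ?_⟩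
  intro l hl hlH
  have h1 := near H δ (2 * E) hE6 k f htyp l hl hlH
  rw [← hs0] at h1
  have h2 := S_spec (htyp l hl (fun x hx => (hlH x hx).trans h0))
  set s := S H δ (2 * E) (Dl l f) with hs
  unfold IsTyp at h2
  refine le_trans ?_ h2
  have e1 : (fun t : ℕ => f t - s0 / ((k.factorial : ℝ) * ((H / 2 : ℕ) : ℝ) ^ k) * (t : ℝ) ^ k)
      = fun t => f t - (fun t : ℕ => (Polynomial.C (s0 / ((k.factorial : ℝ) *
        ((H / 2 : ℕ) : ℝ) ^ k)) * Polynomial.X ^ k : Polynomial ℝ).eval (t : ℝ)) t := by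
    funext t
    simp
  rw [e1, Dl_sub, Dl_poly k _ (Polynomial.natDegree_C_mul_X_pow_le _ _) l hl]
  rw [Nat.cast_le]
  apply bad_mono h0
  intro t _ ht
  by_contra hc
  push Not at hc
  apply absurd ht
  push Not
  have e2 : (k.factorial : ℝ) * (Polynomial.C (s0 / ((k.factorial : ℝ) *
        ((H / 2 : ℕ) : ℝ) ^ k)) * Polynomial.X ^ k : Polynomial ℝ).coeff k *
        (l.map (Nat.cast : ℕ → ℝ)).prod =
      (l.map (Nat.cast : ℕ → ℝ)).prod / ((H / 2 : ℕ) : ℝ) ^ k * s0 := by
    rw [Polynomial.coeff_C_mul, Polynomial.coeff_X_pow]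
    simp only [if_true, mul_one]
    have hk : (k.factorial : ℝ) ≠ 0 := by positivity
    rw [div_eq_mul_inv, mul_inv]
    field_simp
  rw [e2]
  have e3 : Dl l f t - (l.map (Nat.cast : ℕ → ℝ)).prod / ((H / 2 : ℕ) : ℝ) ^ k * s0 =
      (Dl l f t - s) + (s - (l.map (Nat.cast : ℕ → ℝ)).prod / ((H / 2 : ℕ) : ℝ) ^ k * s0) := by
    ring
  rw [e3]
  refine (abs_add_le _ _).trans ?_
  linarith

lemma AllB_poly : ∀ k : ℕ, ∃ c : ℝ, 1 ≤ c ∧ ∀ (f : ℕ → ℝ) (δ : ℝ) (H : ℕ) (E : ℝ),
    0 ≤ δ → 0 ≤ E → AllB k H δ E f → ∃ P : Polynomial ℝ, P.degree < k ∧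
      (bad (H / 2 ^ k) (c * δ) (fun t => f t - P.eval (t : ℝ)) : ℝ) ≤ 12 * 2 ^ k * E := by
  intro k
  induction k with
  | zero =>
    refine ⟨1, le_rfl, ?_⟩
    intro f δ H E hδ hE hf
    refine ⟨0, by simp, ?_⟩
    have := hf [] rfl (by simp)
    simp only [Dl_nil] at this
    simp only [pow_zero, Nat.div_one, one_mul, Polynomial.eval_zero, sub_zero, mul_one]
    linarith
  | succ k ih =>
    obtain ⟨c, hc1, hc⟩ := ih
    refine ⟨c * (9 * k + 1), ?_, ?_⟩
    · have : (1 : ℝ) ≤ 9 * k + 1 := by
        have : (0 : ℝ) ≤ k := by positivity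
        linarith
      nlinarith
    intro f δ H E hδ hE hf
    rcases le_or_gt (H : ℝ) (12 * E) with h1 | h1
    · refine ⟨0, by
        rw [Polynomial.degree_zero]
        exact WithBot.bot_lt_coe _, ?_⟩
      have h2 := bad_le (H / 2 ^ (k + 1)) (c * (9 * k + 1) * δ)
        (fun t => f t - (0 : Polynomial ℝ).eval (t : ℝ))
      have h3 : H / 2 ^ (k + 1) ≤ H := Nat.div_le_self _ _
      have h4 : (bad (H / 2 ^ (k + 1)) (c * (9 * k + 1) * δ)
        (fun t => f t - (0 : Polynomial ℝ).eval (t : ℝ)) : ℝ) ≤ H := by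
        exact_mod_cast h2.trans h3
      have h5 : (1 : ℝ) ≤ 2 ^ (k + 1) := one_le_pow₀ (by norm_num)
      nlinarith
    · obtain ⟨a, ha⟩ := AllB_step k H δ E hE f h1 hf
      obtain ⟨P, hP, hP2⟩ := hc _ _ _ _ (by positivity) (by positivity) ha
      refine ⟨P + Polynomial.C a * Polynomial.X ^ k, ?_, ?_⟩
      · have h2 : (P + Polynomial.C a * Polynomial.X ^ k).degree ≤ (k : WithBot ℕ) := by
          refine (Polynomial.degree_add_le _ _).trans ?_
          exact max_le hP.le (Polynomial.degree_C_mul_X_pow_le _ _)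
        refine lt_of_le_of_lt h2 ?_
        exact_mod_cast Nat.lt_succ_self k
      · have e1 : H / 2 ^ (k + 1) = H / 2 / 2 ^ k := by
          rw [Nat.div_div_eq_div_mul, pow_succ']
        rw [e1]
        have e2 : (fun t : ℕ => f t - (P + Polynomial.C a * Polynomial.X ^ k).eval (t : ℝ)) =
            fun t : ℕ => f t - a * (t : ℝ) ^ k - P.eval (t : ℝ) := by
          funext t
          simp
          ring
        rw [e2, mul_assoc c]
        refine hP2.trans (le_of_eq ?_)
        ring

/-- **POLY** (99 percent Frechet equation). -/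
theorem poly (k : ℕ) : ∃ C : ℕ, 0 < C ∧ ∀ (W : ℕ) (f : ℕ → ℝ) (δ ε : ℝ), 0 ≤ δ → 0 ≤ ε →
    (eb W W δ k f : ℝ) ≤ ε * (W : ℝ) ^ (k + 1) →
    ∃ P : Polynomial ℝ, P.degree < k ∧
      (bad (W / C) (C * δ) (fun t => f t - P.eval (t : ℝ)) : ℝ) ≤ C * ε * W := by
  obtain ⟨c, hc1, hc⟩ := AllB_poly k
  obtain ⟨n, hn⟩ := exists_nat_ge c
  refine ⟨12 * 8 ^ k * (n + 1), by positivity, ?_⟩
  intro W f δ ε hδ hε hf
  rcases Nat.eq_zero_or_pos W with h0 | hpos
  · subst h0
    refine ⟨0, by
      rw [Polynomial.degree_zero]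
      exact WithBot.bot_lt_coe _, ?_⟩
    have := bad_le (0 / (12 * 8 ^ k * (n + 1))) ((12 * 8 ^ k * (n + 1) : ℕ) * δ)
        (fun t => f t - (0 : Polynomial ℝ).eval (t : ℝ))
    rw [Nat.zero_div] at this
    rw [Nat.zero_div]
    have h1 : bad 0 ((12 * 8 ^ k * (n + 1) : ℕ) * δ)
        (fun t => f t - (0 : Polynomial ℝ).eval (t : ℝ)) = 0 := by omega
    rw [h1]
    simp
  have hW : (0 : ℝ) < W := by exact_mod_cast hpos
  have hall : AllB k (W / 2 ^ k) (2 ^ k * δ) (4 ^ k * ε * W) f := by
    intro l hl hlH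
    have h1 := all_steps W k W δ f l hl (by
      intro h hh
      have h2 := hlH h hh
      have h3 : 1 ≤ k := by
        rw [← hl]
        exact List.length_pos_of_mem hh
      have h4 : W / 2 ^ k ≤ W / 2 := by
        apply Nat.div_le_div_left _ (by norm_num)
        calc 2 = 2 ^ 1 := by norm_num
          _ ≤ 2 ^ k := Nat.pow_le_pow_right (by norm_num) h3
      omega) hlH
    have h2 : ((W ^ k * bad (W / 2 ^ k) (2 ^ k * δ) (Dl l f) : ℕ) : ℝ) ≤
        ((4 ^ k * eb W W δ k f : ℕ) : ℝ) := by exact_mod_cast h1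
    push_cast at h2
    have h3 : (W : ℝ) ^ k * (bad (W / 2 ^ k) (2 ^ k * δ) (Dl l f) : ℝ) ≤
        (W : ℝ) ^ k * (4 ^ k * ε * W) := by
      refine h2.trans ?_
      have h4 : (4 : ℝ) ^ k * (eb W W δ k f : ℝ) ≤ 4 ^ k * (ε * (W : ℝ) ^ (k + 1)) :=
        mul_le_mul_of_nonneg_left hf (by positivity)
      refine h4.trans (le_of_eq ?_)
      ring
    exact le_of_mul_le_mul_left h3 (by positivity)
  obtain ⟨P, hP, hP2⟩ := hc f (2 ^ k * δ) (W / 2 ^ k) (4 ^ k * ε * W) (by positivity)
    (by positivity) hall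
  refine ⟨P, hP, ?_⟩
  have hT : W / (12 * 8 ^ k * (n + 1)) ≤ W / 2 ^ k / 2 ^ k := by
    rw [Nat.div_div_eq_div_mul]
    apply Nat.div_le_div_left _ (by positivity)
    calc 2 ^ k * 2 ^ k = 4 ^ k := by rw [← mul_pow]; norm_num
      _ ≤ 8 ^ k := Nat.pow_le_pow_left (by norm_num) k
      _ ≤ 12 * 8 ^ k * (n + 1) := by nlinarith [pow_pos (by norm_num : 0 < 8) k]
  have hb : bad (W / (12 * 8 ^ k * (n + 1))) ((12 * 8 ^ k * (n + 1) : ℕ) * δ)
      (fun t => f t - P.eval (t : ℝ)) ≤
      bad (W / 2 ^ k / 2 ^ k) (c * (2 ^ k * δ)) (fun t => f t - P.eval (t : ℝ)) := by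
    apply bad_mono hT
    intro t _ ht
    refine lt_of_le_of_lt ?_ ht
    push_cast
    have h2 : c * 2 ^ k ≤ 12 * 8 ^ k * (n + 1) := by
      have h3 : (2 : ℝ) ^ k ≤ 8 ^ k := pow_le_pow_left₀ (by norm_num) (by norm_num) k
      have h4 : c ≤ n + 1 := by linarith
      have h5 : (0 : ℝ) < 8 ^ k := by positivity
      calc c * 2 ^ k ≤ (n + 1) * 8 ^ k := mul_le_mul h4 h3 (by positivity) (by positivity)
        _ ≤ 12 * ((n + 1) * 8 ^ k) := by
            have : (0 : ℝ) ≤ (n + 1) * 8 ^ k := by positivity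
            linarith
        _ = _ := by ring
    calc c * (2 ^ k * δ) = (c * 2 ^ k) * δ := by ring
      _ ≤ _ := mul_le_mul_of_nonneg_right h2 hδ
  have hb' : (bad (W / (12 * 8 ^ k * (n + 1))) ((12 * 8 ^ k * (n + 1) : ℕ) * δ)
      (fun t => f t - P.eval (t : ℝ)) : ℝ) ≤
      bad (W / 2 ^ k / 2 ^ k) (c * (2 ^ k * δ)) (fun t => f t - P.eval (t : ℝ)) := by
    exact_mod_cast hb
  refine hb'.trans (hP2.trans ?_)
  push_cast
  have e : (12 : ℝ) * 2 ^ k * (4 ^ k * ε * W) = 12 * 8 ^ k * (ε * W) := by
    have : (8 : ℝ) ^ k = 2 ^ k * 4 ^ k := by rw [← mul_pow]; norm_num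
    rw [this]
    ring
  rw [e]
  have h6 : (0 : ℝ) ≤ 12 * 8 ^ k * (ε * W) := by positivity
  have h7 : (0 : ℝ) ≤ n := by positivity
  nlinarith

end Pool.Agent.Helper19.RSK
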